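import Mathlib

set_option autoImplicit false

namespace Pool.Agent.P.MP_dca9d4_lc

/-- The periodic word `(01)^n`. -/
def sea : ℕ → List (Fin 2)
  | 0 => []
  | n + 1 => 0 :: 1 :: sea n

theorem sea_add (m n : ℕ) : sea (m + n) = sea m ++ sea n := by
  induction m with
  | zero => simp [sea]
  | succ m ih => rw [Nat.succ_add]; simp [sea, ih]

/-- Evaluation of a word in the unknowns `(g, c)`: it is `c` when `g` is active, else empty. -/
def ev {Y : Type} (act : Y → Bool) (l : List (Y × Fin 2)) : List (Fin 2) :=
  l.flatMap (fun x => if act x.1 then [x.2] else [])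

theorem ev_append {Y : Type} (act : Y → Bool) (l m : List (Y × Fin 2)) :
    ev act (l ++ m) = ev act l ++ ev act m := by
  simp [ev]

def rep {Y : Type} (g : Y) : ℕ → List (Y × Fin 2)
  | 0 => []
  | n + 1 => (g, 0) :: (g, 1) :: rep g n

theorem length_rep {Y : Type} (g : Y) (n : ℕ) : (rep g n).length = 2 * n := by
  induction n with
  | zero => rfl
  | succ n ih => simp [rep, ih]; ring

theorem ev_rep {Y : Type} (act : Y → Bool) (g : Y) (n : ℕ) :
    ev act (rep g n) = if act g then sea n else [] := by
  induction n with
  | zero => simp [rep, ev, sea]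
  | succ n ih =>
    have : ev act (rep g (n + 1)) =
        (if act g then [0] else []) ++ ((if act g then [1] else []) ++ ev act (rep g n)) := by
      simp [rep, ev]
    rw [this, ih]
    cases act g <;> simp [sea]

def mid {Y : Type} (one z zb : Y) (x : Y × Fin 2) : List (Y × Fin 2) :=
  if x.2 = 0 then
    [(x.1, 0), (z, 0), (x.1, 1), (z, 1), (zb, 0), (zb, 1), (one, 0), (one, 1)]
  else
    [(one, 0), (one, 1), (x.1, 0), (z, 0), (x.1, 1), (z, 1), (zb, 0), (zb, 1)]

def dft (on : Bool) (c : Fin 2) : List (Fin 2) :=
  if on then (if c = 0 then [0, 0, 1, 1, 0, 1] else [0, 1, 0, 0, 1, 1]) else [0, 1, 0, 1, 0, 1]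

theorem length_dft (on : Bool) (c : Fin 2) : (dft on c).length = 6 := by
  revert on c; decide

theorem dft_inj (c c' : Fin 2) (h : dft true c = dft true c') : c = c' := by
  revert c c'; decide

theorem ev_mid {Y : Type} (act : Y → Bool) (one z zb : Y) (h1 : act one = true)
    (hz : act zb = !act z) (x : Y × Fin 2) :
    ev act (mid one z zb x) = if act x.1 then dft (act z) x.2 else sea 2 := by
  obtain ⟨g, c⟩ := x
  unfold mid dft ev
  by_cases hc : c = 0 <;> cases hg : act g <;> cases hz' : act z <;>
    simp [hc, h1, hz, hg, hz', sea]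

def enc {Y : Type} (one z zb : Y) : List (Y × Fin 2) → ℕ → List (Y × Fin 2)
  | [], _ => []
  | x :: t, v => rep x.1 (2 * t.length + 2) ++ mid one z zb x ++ rep x.1 (v + 2) ++
      enc one z zb t (v + 2)

theorem length_mid {Y : Type} (one z zb : Y) (x : Y × Fin 2) : (mid one z zb x).length = 8 := by
  unfold mid; split_ifs <;> rfl

theorem length_enc {Y : Type} (one z zb : Y) (l : List (Y × Fin 2)) (v : ℕ) :
    (enc one z zb l v).length = l.length * (4 * l.length + 2 * v + 12) := by
  induction l generalizing v with
  | nil => simp [enc]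
  | cons x t ih => simp [enc, ih, length_rep, length_mid]; ring

def code (on : Bool) (L : ℕ) (w : List (Fin 2)) : List (Fin 2) :=
  w.flatMap (fun c => sea L ++ dft on c) ++ sea L

theorem ev_enc_aux {Y : Type} (act : Y → Bool) (one z zb : Y) (h1 : act one = true)
    (hz : act zb = !act z) (l : List (Y × Fin 2)) (v : ℕ) :
    sea v ++ ev act (enc one z zb l v) = code (act z) (v + 2 * l.length) (ev act l) := by
  induction l generalizing v with
  | nil => simp [enc, ev, code]
  | cons x t ih =>
    have e1 : v + 2 * (x :: t).length = v + 2 + 2 * t.length := by simp; ring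
    have e2 : ev act (x :: t) = (if act x.1 then [x.2] else []) ++ ev act t := by simp [ev]
    rw [enc, ev_append, ev_append, ev_append, ev_rep, ev_rep, ev_mid act one z zb h1 hz, e1, e2]
    have ih' := ih (v + 2)
    cases hx : act x.1
    · simp only [Bool.false_eq_true, if_false, List.nil_append, List.append_nil]
      rw [← List.append_assoc, ← sea_add, ih']
    · simp only [if_true]
      have e3 : v + 2 + 2 * t.length = v + (2 * t.length + 2) := by ring
      have e4 : code (act z) (v + 2 + 2 * t.length) ([x.2] ++ ev act t) =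
          sea (v + 2 + 2 * t.length) ++ dft (act z) x.2 ++
            code (act z) (v + 2 + 2 * t.length) (ev act t) := by
        simp [code]
      rw [e4, ← ih', e3, sea_add v (2 * t.length + 2)]
      simp

theorem ev_enc {Y : Type} (act : Y → Bool) (one z zb : Y) (h1 : act one = true)
    (hz : act zb = !act z) (l : List (Y × Fin 2)) :
    ev act (enc one z zb l 0) = code (act z) (2 * l.length) (ev act l) := by
  have := ev_enc_aux act one z zb h1 hz l 0
  simpa [sea] using this

theorem code_cons (on : Bool) (L : ℕ) (c : Fin 2) (w : List (Fin 2)) :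
    code on L (c :: w) = sea L ++ (dft on c ++ code on L w) := by
  simp [code]

theorem length_code (on : Bool) (L : ℕ) (w : List (Fin 2)) :
    (code on L w).length = w.length * ((sea L).length + 6) + (sea L).length := by
  induction w with
  | nil => simp [code]
  | cons c w ih => rw [code_cons]; simp [ih, length_dft]; ring

theorem code_false (L : ℕ) (w w' : List (Fin 2)) (h : w.length = w'.length) :
    code false L w = code false L w' := by
  induction w generalizing w' with
  | nil => cases w' with
    | nil => rfl
    | cons c w' => simp at h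
  | cons c w ih => cases w' with
    | nil => simp at h
    | cons c' w' =>
      rw [code_cons, code_cons, ih w' (by simpa using h)]
      rfl

theorem code_true_inj (L : ℕ) (w w' : List (Fin 2)) (h : w.length = w'.length)
    (e : code true L w = code true L w') : w = w' := by
  induction w generalizing w' with
  | nil => cases w' with
    | nil => rfl
    | cons c w' => simp at h
  | cons c w ih => cases w' with
    | nil => simp at h
    | cons c' w' =>
      rw [code_cons, code_cons, List.append_cancel_left_eq] at e
      have := List.append_inj e (by rw [length_dft, length_dft])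
      rw [dft_inj c c' this.1, ih w' (by simpa using h) this.2]

/-- A system indexed by `I` whose `i`-th equation fails exactly under the `i`-th morphism. -/
def Sys (Y I : Type) : Prop :=
  ∃ (one : Y) (act : I → Y → Bool) (α β : I → List (Y × Fin 2)),
    (∀ j, act j one = true) ∧ (∀ i, (α i).length = (β i).length) ∧
    (∀ i j, (ev (act j) (α i)).length = (ev (act j) (β i)).length) ∧
    (∀ i j, ev (act j) (α i) = ev (act j) (β i) ↔ i ≠ j)

theorem sys_base : Sys Unit Unit := by
  refine ⟨(), fun _ _ => true, fun _ => [((), 0)], fun _ => [((), 1)], ?_, ?_, ?_, ?_⟩ <;>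
    simp [ev]

def lift {Y : Type} (l : List (Y × Fin 2)) : List ((Y ⊕ Bool) × Fin 2) :=
  l.map (fun x => (Sum.inl x.1, x.2))

theorem ev_lift {Y : Type} (act : Y → Bool) (f : Bool → Bool) (l : List (Y × Fin 2)) :
    ev (Sum.elim act f) (lift l) = ev act l := by
  simp [ev, lift, List.flatMap_map]

theorem sys_step {Y I : Type} (h : Sys Y I) : Sys (Y ⊕ Bool) (I × Bool) := by
  obtain ⟨one, act, α, β, h1, h2, h3, h4⟩ := h
  have key : ∀ (j : I) (b b' : Bool) (l : List (Y × Fin 2)),
      ev (Sum.elim (act j) (fun c => c == b'))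
        (enc (Sum.inl one) (Sum.inr b) (Sum.inr (!b)) (lift l) 0) =
      code (b == b') (2 * l.length) (ev (act j) l) := by
    intro j b b' l
    rw [ev_enc _ _ _ _ (by simpa using h1 j) (by cases b <;> cases b' <;> rfl), ev_lift]
    simp [lift]
  refine ⟨Sum.inl one, fun j => Sum.elim (act j.1) (fun c => c == j.2),
    fun i => enc (Sum.inl one) (Sum.inr i.2) (Sum.inr (!i.2)) (lift (α i.1)) 0,
    fun i => enc (Sum.inl one) (Sum.inr i.2) (Sum.inr (!i.2)) (lift (β i.1)) 0, ?_, ?_, ?_, ?_⟩
  · intro j; simpa using h1 j.1
  · intro i; simp [length_enc, lift, h2]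
  · intro i j
    rw [key, key, length_code, length_code, h2, h3]
  · rintro ⟨i, b⟩ ⟨j, b'⟩
    rw [key, key, h2]
    by_cases hb : b = b'
    · subst hb
      simp only [beq_self_eq_true, ne_eq, Prod.mk.injEq, and_true]
      constructor
      · intro e
        exact (h4 i j).1 (code_true_inj _ _ _ (h3 i j) e)
      · intro e
        rw [(h4 i j).2 e]
    · have : (b == b') = false := by simpa using hb
      simp only [this, ne_eq, Prod.mk.injEq, hb, and_false, not_false_eq_true, iff_true]
      exact code_false _ _ _ (h3 i j)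

theorem sys_all (d : ℕ) : ∃ (Y I : Type) (_ : Fintype Y) (_ : Fintype I),
    Fintype.card Y = 2 * d + 1 ∧ Fintype.card I = 2 ^ d ∧ Sys Y I := by
  induction d with
  | zero => exact ⟨Unit, Unit, inferInstance, inferInstance, by simp, by simp, sys_base⟩
  | succ d ih =>
    obtain ⟨Y, I, _, _, hY, hI, h⟩ := ih
    refine ⟨Y ⊕ Bool, I × Bool, inferInstance, inferInstance, ?_, ?_, sys_step h⟩
    · simp [hY]; ring
    · simp [hI]; ring

/-- For every `d` there is an independent system of `2^d` equations in `4d+2` unknowns. -/
theorem indep (d : ℕ) : ∃ S : Finset (List (Fin (4 * d + 2)) × List (Fin (4 * d + 2))),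
    S.card = 2 ^ d ∧
    ∀ T : Finset (List (Fin (4 * d + 2)) × List (Fin (4 * d + 2))), T ⊂ S →
      ∃ f : Fin (4 * d + 2) → List (Fin 2),
        (∀ e ∈ T, e.1.flatMap f = e.2.flatMap f) ∧ ∃ e ∈ S, e.1.flatMap f ≠ e.2.flatMap f := by
  classical
  obtain ⟨Y, I, _, _, hY, hI, one, act, α, β, -, -, -, h4⟩ := sys_all d
  have hc : Fintype.card (Y × Fin 2) = 4 * d + 2 := by simp [hY]; ring
  let e : Y × Fin 2 ≃ Fin (4 * d + 2) := Fintype.equivFinOfCardEq hc
  let E : I → List (Fin (4 * d + 2)) × List (Fin (4 * d + 2)) :=
    fun i => ((α i).map e, (β i).map e)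
  let f : I → Fin (4 * d + 2) → List (Fin 2) :=
    fun j k => if act j (e.symm k).1 then [(e.symm k).2] else []
  have hf : ∀ (j : I) (l : List (Y × Fin 2)), (l.map e).flatMap (f j) = ev (act j) l := by
    intro j l
    simp [ev, f, List.flatMap_map]
  have hE : ∀ i j, (E i).1.flatMap (f j) = (E i).2.flatMap (f j) ↔ i ≠ j := by
    intro i j
    simp only [E, hf]
    exact h4 i j
  have hinj : Function.Injective E := by
    intro i j hij
    by_contra hne
    have := (hE i j).2 hne
    rw [hij] at this
    exact (hE j j).1 this rfl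
  refine ⟨Finset.univ.image E, ?_, ?_⟩
  · rw [Finset.card_image_of_injective _ hinj, Finset.card_univ, hI]
  · intro T hT
    obtain ⟨x, hx, hxT⟩ := Finset.exists_of_ssubset hT
    obtain ⟨i, -, rfl⟩ := Finset.mem_image.1 hx
    refine ⟨f i, ?_, E i, hx, fun h => (hE i i).1 h rfl⟩
    intro y hy
    obtain ⟨k, -, rfl⟩ := Finset.mem_image.1 (hT.1 hy)
    refine (hE k i).2 ?_
    rintro rfl
    exact hxT hy

end Pool.Agent.P.MP_dca9d4_lc
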