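import Mathlib

/-! Independent systems of word equations over the free semigroup. -/

set_option autoImplicit false

namespace Pool.Agent.P.MP_dca9d4_lc.Semi

/-- the power `P ^ n` of a word -/
def pw {A : Type} (P : List A) : ℕ → List A
  | 0 => []
  | n + 1 => P ++ pw P n

theorem pw_add {A : Type} (P : List A) (m n : ℕ) : pw P (m + n) = pw P m ++ pw P n := by
  induction m with
  | zero => simp [pw]
  | succ m ih => rw [Nat.succ_add]; simp [pw, ih]

theorem pw_flatMap {A Z : Type} (f : Z → List A) (s : List Z) (P : List A) (a : ℕ)
    (h : s.flatMap f = pw P a) (n : ℕ) : (pw s n).flatMap f = pw P (a * n) := by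
  induction n with
  | zero => simp [pw]
  | succ n ih => rw [pw, List.flatMap_append, ih, h, ← pw_add]; congr 1; ring

theorem length_pw {A : Type} (P : List A) (n : ℕ) : (pw P n).length = n * P.length := by
  induction n with
  | zero => simp [pw]
  | succ n ih => simp [pw, ih]; ring

/-- every move `x` becomes a core `m x` between two powers of a shifter `s x` -/
def lay {X Z : Type} (s m : X → List Z) (κ : ℕ) : List X → ℕ → List Z
  | [], _ => []
  | x :: t, v => pw (s x) (κ * t.length) ++ m x ++ pw (s x) (κ * (v + 1)) ++ lay s m κ t (v + 1)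

section lay

variable {X Z A : Type} {s m : X → List Z} {κ : ℕ} {f : Z → List A} {P : List A} {on : X → Bool}
  {a b c n : ℕ}

theorem length_lay {p q : ℕ} (hs : ∀ x, (s x).length = p) (hm : ∀ x, (m x).length = q)
    (l : List X) (v : ℕ) :
    (lay s m κ l v).length = l.length * (κ * (v + l.length) * p + q) := by
  induction l generalizing v with
  | nil => simp [lay]
  | cons x t ih => simp [lay, ih, length_pw, hs, hm]; ring

theorem lay_code {D : X → List A} (hs : ∀ x, (s x).flatMap f = pw P (if on x then a else b))
    (hm : ∀ x, (m x).flatMap f = if on x then D x else pw P c)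
    (hκ : b * κ * (n + 1) + c = a * κ) (l : List X) (v : ℕ) (h : v + l.length = n + 1) :
    pw P (a * κ * v) ++ (lay s m κ l v).flatMap f =
      (l.filter on).flatMap (fun x => pw P (a * κ * n) ++ D x) ++ pw P (a * κ * (n + 1)) := by
  induction l generalizing v with
  | nil => simp [lay, ← h]
  | cons x t ih =>
    rw [List.length_cons] at h
    have ih' := ih (v + 1) (by omega)
    rw [lay, List.flatMap_append, List.flatMap_append, List.flatMap_append,
      pw_flatMap f _ P _ (hs x), pw_flatMap f _ P _ (hs x), hm]
    cases hx : on x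
    · rw [List.filter_cons_of_neg (by simp [hx]), ← ih']
      simp only [Bool.false_eq_true, if_false, ← List.append_assoc, ← pw_add]
      congr 2
      have : n + 1 = v + t.length + 1 := by omega
      rw [this] at hκ
      linarith
    · rw [List.filter_cons_of_pos hx, List.flatMap_cons,
        List.append_assoc _ _ (pw P (a * κ * (n + 1))), ← ih']
      simp only [if_true, ← List.append_assoc, ← pw_add]
      have : n = v + t.length := by omega
      rw [this, mul_assoc a κ (v + 1)]
      congr 4
      ring

theorem lay_sea {c' : ℕ} (hs : ∀ x, (s x).flatMap f = pw P (if on x then a else 0))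
    (hm : ∀ x, (m x).flatMap f = pw P (if on x then c' + c else c)) (l : List X) (v : ℕ) :
    (lay s m κ l v).flatMap f =
      pw P ((l.filter on).length * (a * κ * (v + l.length) + c') + l.length * c) := by
  induction l generalizing v with
  | nil => simp [lay, pw]
  | cons x t ih =>
    rw [lay, List.flatMap_append, List.flatMap_append, List.flatMap_append,
      pw_flatMap f _ P _ (hs x), pw_flatMap f _ P _ (hs x), hm, ih]
    simp only [← pw_add]
    congr 1
    cases hx : on x
    · rw [List.filter_cons_of_neg (by simp [hx])]
      simp only [Bool.false_eq_true, if_false, List.length_cons]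
      ring
    · rw [List.filter_cons_of_pos hx]
      simp only [if_true, List.length_cons]
      ring

end lay

theorem code_inj {A C : Type} (G : List A) (D : C → List A) {q : ℕ} (hq : ∀ c, (D c).length = q)
    (hD : Function.Injective D) (R : List A) (w w' : List C) (h : w.length = w'.length)
    (e : w.flatMap (fun c => G ++ D c) ++ R = w'.flatMap (fun c => G ++ D c) ++ R) : w = w' := by
  induction w generalizing w' with
  | nil => exact (List.length_eq_zero_iff.1 h.symm).symm
  | cons c w ih => cases w' with
    | nil => simp at h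
    | cons c' w' =>
      simp only [List.flatMap_cons, List.append_assoc, List.append_cancel_left_eq] at e
      have := List.append_inj e (by rw [hq, hq])
      rw [hD this.1, ih w' (by simpa using h) this.2]

theorem length_code {A C : Type} (G : List A) (D : C → List A) {q : ℕ}
    (hq : ∀ c, (D c).length = q) (w : List C) :
    (w.flatMap fun c => G ++ D c).length = w.length * (G.length + q) := by
  induction w with
  | nil => simp
  | cons c w ih => rw [List.flatMap_cons, List.length_append, ih]; simp [hq]; ring

section virt

variable {K : Type}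

/-- a move is active if it has no slot or its slot is switched on -/
def on (act : K → Bool) (x : Option K × Bool) : Bool := x.1.all act

/-- the word of the active moves -/
def ev (act : K → Bool) (l : List (Option K × Bool)) : List Bool :=
  l.flatMap fun x => if on act x then [x.2] else []

theorem ev_eq (act : K → Bool) (l : List (Option K × Bool)) :
    ev act l = (l.filter (on act)).map Prod.snd := by
  induction l with
  | nil => rfl
  | cons x t ih =>
    rw [ev, List.flatMap_cons, ← ev, ih]
    cases hx : on act x <;> simp [hx]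

def sh (x : Option K × Bool) : List (Option K × Bool) := [(x.1, false), (x.1, true)]

def core (z : K) (x : Option K × Bool) : List (Option K × Bool) :=
  if x.2 then [(none, false), (none, true), (x.1, false), (some z, false), (x.1, true), (some z, true)]
  else [(x.1, false), (some z, false), (x.1, true), (some z, true), (none, false), (none, true)]

def dft (c : Bool) : List Bool :=
  if c then [false, true, false, false, true, true] else [false, false, true, true, false, true]

theorem ev_sh (act : K → Bool) (x : Option K × Bool) :
    ev act (sh x) = pw [false, true] (if on act x then 1 else 0) := by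
  unfold ev sh on
  cases h : x.1.all act <;> simp [h, pw]

theorem ev_core_on {act : K → Bool} {z : K} (hz : act z = true) (x : Option K × Bool) :
    ev act (core z x) = if on act x then dft x.2 else pw [false, true] 2 := by
  unfold ev core on dft
  cases h : x.1.all act <;> cases x.2 <;> simp [h, hz, pw]

theorem ev_core_off {act : K → Bool} {z : K} (hz : act z = false) (x : Option K × Bool) :
    ev act (core z x) = pw [false, true] (if on act x then 1 + 1 else 1) := by
  unfold ev core on
  cases h : x.1.all act <;> cases x.2 <;> simp [h, hz, pw]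

/-- an equation between moves that holds iff one of the given slots is switched off -/
theorem virt (S : List K) : ∃ α β : List (Option K × Bool), α.length = β.length ∧
    (∀ act, (ev act α).length = (ev act β).length) ∧
    ∀ act, ev act α = ev act β ↔ ∃ k ∈ S, act k = false := by
  induction S with
  | nil => exact ⟨[(none, false)], [(none, true)], rfl, fun _ => rfl, fun _ => by simp [ev, on]⟩
  | cons z S ih =>
    obtain ⟨α, β, h1, h2, h3⟩ := ih
    have k1 : ∀ act : K → Bool, act z = true → ∀ l : List (Option K × Bool),
        pw [false, true] (1 * 2 * 1) ++ ev act (lay sh (core z) 2 l 1) =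
        (ev act l).flatMap (fun c => pw [false, true] (1 * 2 * l.length) ++ dft c) ++
          pw [false, true] (1 * 2 * (l.length + 1)) := fun act hz l => by
      rw [ev_eq act l, List.flatMap_map]
      exact lay_code (ev_sh act) (ev_core_on hz) (by simp) l 1 (by omega)
    have k2 : ∀ act : K → Bool, act z = false →
        ev act (lay sh (core z) 2 α 1) = ev act (lay sh (core z) 2 β 1) := fun act hz => by
      have e := h2 act
      rw [ev_eq, ev_eq, List.length_map, List.length_map] at e
      rw [ev, ev, lay_sea (ev_sh act) (ev_core_off hz), lay_sea (ev_sh act) (ev_core_off hz), e, h1]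
    have hq : ∀ c, (dft c).length = 6 := by decide
    refine ⟨lay sh (core z) 2 α 1, lay sh (core z) 2 β 1, ?_, fun act => ?_, fun act => ?_⟩
    · have hc : ∀ x, (core z x).length = 6 := fun x => by unfold core; split_ifs <;> rfl
      rw [length_lay (p := 2) (fun _ => rfl) hc, length_lay (p := 2) (fun _ => rfl) hc, h1]
    · cases hz : act z
      · rw [k2 act hz]
      · have a1 := congrArg List.length (k1 act hz α)
        have a2 := congrArg List.length (k1 act hz β)
        rw [List.length_append, List.length_append, length_code _ _ hq] at a1 a2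
        rw [h1, h2] at a1
        omega
    · cases hz : act z
      · exact iff_of_true (k2 act hz) ⟨z, List.mem_cons_self, hz⟩
      · have a1 := k1 act hz α
        have a2 := k1 act hz β
        rw [h1] at a1
        simp only [List.mem_cons, exists_eq_or_imp, hz, Bool.true_eq_false, false_or, ← h3]
        refine ⟨fun e => ?_, fun e => ?_⟩
        · rw [e, a2] at a1
          exact code_inj _ _ hq (by decide) _ _ _ (h2 act) a1.symm
        · rw [e, ← a2] at a1
          exact List.append_cancel_left a1

/-- values of the unknowns: the slots, then the two letters -/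
def val (R : ℕ) (act : K → Bool) : K ⊕ Fin 2 → List (Fin 2)
  | .inl k => if act k then pw [0, 0, 1] R ++ [0] else [0]
  | .inr c => [c]

/-- the unknown of a slot; a constant word if there is no slot -/
def unk (R : ℕ) : Option K → List (K ⊕ Fin 2)
  | some k => [.inl k]
  | none => pw [.inr 0, .inr 0, .inr 1] R ++ [.inr 0]

theorem val_unk (R : ℕ) (act : K → Bool) (x : Option K × Bool) :
    (unk R x.1).flatMap (val R act) = if on act x then pw [0, 0, 1] R ++ [0] else [0] := by
  obtain ⟨_ | k, c⟩ := x
  · have := pw_flatMap (val R act) [.inr 0, .inr 0, .inr 1] [0, 0, 1] 1 (by simp [val, pw]) R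
    simp [unk, on, this, val]
  · simp only [unk, on, val, List.flatMap_cons, List.flatMap_nil, List.append_nil, Option.all_some]
    rfl

def rsh (R : ℕ) (x : Option K × Bool) : List (K ⊕ Fin 2) := unk R x.1 ++ [.inr 0, .inr 1]

def rcore (R : ℕ) (x : Option K × Bool) : List (K ⊕ Fin 2) :=
  if x.2 then [.inr 0, .inr 0, .inr 1, .inr 0] ++ unk R x.1 ++ [.inr 1]
  else [.inr 0] ++ unk R x.1 ++ [.inr 1, .inr 0, .inr 0, .inr 1]

def rdft (R : ℕ) (c : Bool) : List (Fin 2) :=
  if c then [0, 0, 1, 0] ++ pw [0, 0, 1] R ++ [0, 1] else [0] ++ pw [0, 0, 1] R ++ [0, 1, 0, 0, 1]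

theorem val_rsh (R : ℕ) (act : K → Bool) (x : Option K × Bool) :
    (rsh R x).flatMap (val R act) = pw [0, 0, 1] (if on act x then R + 1 else 1) := by
  rw [rsh, List.flatMap_append, val_unk]
  cases on act x <;> simp [val, pw_add, pw]

theorem val_rcore (R : ℕ) (act : K → Bool) (x : Option K × Bool) :
    (rcore R x).flatMap (val R act) = if on act x then rdft R x.2 else pw [0, 0, 1] 2 := by
  unfold rcore rdft
  have := val_unk R act x
  cases x.2 <;> cases h : on act x <;> simp [h] at this <;> simp [this, val, pw]

/-- the equation between moves as an equation over the free semigroup -/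
theorem real (n : ℕ) (α β : List (Option K × Bool)) (h1 : α.length = β.length)
    (hn : α.length ≤ n) : ∃ u v : List (K ⊕ Fin 2), ∀ act,
      (ev act α).length = (ev act β).length →
      (u.flatMap (val (n + 2) act) = v.flatMap (val (n + 2) act) ↔ ev act α = ev act β) := by
  refine ⟨lay (rsh (n + 2)) (rcore (n + 2)) 1 α (n + 1 - α.length),
    lay (rsh (n + 2)) (rcore (n + 2)) 1 β (n + 1 - α.length), fun act h2 => ?_⟩
  have k1 : ∀ l : List (Option K × Bool), l.length = α.length →
      pw [0, 0, 1] ((n + 2 + 1) * 1 * (n + 1 - α.length)) ++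
        (lay (rsh (n + 2)) (rcore (n + 2)) 1 l (n + 1 - α.length)).flatMap (val (n + 2) act) =
      (ev act l).flatMap (fun c => pw [0, 0, 1] ((n + 2 + 1) * 1 * n) ++ rdft (n + 2) c) ++
        pw [0, 0, 1] ((n + 2 + 1) * 1 * (n + 1)) := fun l hl => by
    rw [ev_eq act l, List.flatMap_map]
    exact lay_code (val_rsh _ act) (val_rcore _ act) (by ring) l _ (by omega)
  have a1 := k1 α rfl
  have a2 := k1 β h1.symm
  refine ⟨fun e => ?_, fun e => ?_⟩
  · rw [e, a2] at a1
    refine code_inj (q := (n + 2) * 3 + 6) _ _ (fun c => ?_) (fun c c' e => ?_) _ _ _ h2 a1.symm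
    · cases c <;> simp [rdft, length_pw]
    · cases c <;> cases c' <;> simp [rdft, pw] at e ⊢
  · rw [e, ← a2] at a1
    exact List.append_cancel_left a1

end virt

theorem val_ne {K : Type} (R : ℕ) (act : K → Bool) (x : K ⊕ Fin 2) : val R act x ≠ [] := by
  rcases x with k | c
  · rw [val]; split_ifs <;> simp
  · simp [val]

/-- one equation for every set of slots -/
theorem family (K : Type) [Fintype K] [DecidableEq K] :
    ∃ (R : ℕ) (u v : Finset K → List (K ⊕ Fin 2)), ∀ S act,
      (u S).flatMap (val R act) = (v S).flatMap (val R act) ↔ ∃ k ∈ S, act k = false := by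
  choose α β h1 h2 h3 using fun S : Finset K => virt S.toList
  choose u v h using fun S : Finset K => real (Finset.univ.sup fun S => (α S).length) (α S) (β S)
    (h1 S) (Finset.le_sup (f := fun S => (α S).length) (Finset.mem_univ S))
  exact ⟨_, u, v, fun S act => by rw [h S act (h2 S act), h3]; simp⟩

theorem main (d : ℕ) : ∃ S : Finset (List (Fin (d + 3)) × List (Fin (d + 3))),
    (∀ e ∈ S, e.1 ≠ [] ∧ e.2 ≠ []) ∧ S.card = (d + 1).choose ((d + 1) / 2) ∧
    (∀ T : Finset (List (Fin (d + 3)) × List (Fin (d + 3))), T ⊂ S →
      ∃ f : Fin (d + 3) → List (Fin 2), (∀ i, f i ≠ []) ∧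
        (∀ e ∈ T, e.1.flatMap f = e.2.flatMap f) ∧ ∃ e ∈ S, e.1.flatMap f ≠ e.2.flatMap f) ∧
    ∃ f : Fin (d + 3) → List (Fin 2), (∀ i, f i ≠ []) ∧
      (∀ e ∈ S, e.1.flatMap f = e.2.flatMap f) ∧ ∃ i j, f i ++ f j ≠ f j ++ f i := by
  classical
  obtain ⟨R, u, v, h⟩ := family (Fin (d + 1))
  let e : Fin (d + 1) ⊕ Fin 2 ≃ Fin (d + 3) := finSumFinEquiv
  let E : Finset (Fin (d + 1)) → List (Fin (d + 3)) × List (Fin (d + 3)) :=
    fun S => (0 :: (u S).map e, 0 :: (v S).map e)
  let f : (Fin (d + 1) → Bool) → Fin (d + 3) → List (Fin 2) := fun act i => val R act (e.symm i)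
  have hE : ∀ S act, (E S).1.flatMap (f act) = (E S).2.flatMap (f act) ↔
      ∃ k ∈ S, act k = false := fun S act => by
    rw [← h]
    simp [E, f, List.flatMap_map]
  set I := Finset.powersetCard ((d + 2) / 2) (Finset.univ : Finset (Fin (d + 1))) with hI
  have hE' : ∀ S ∈ I, ∀ S' ∈ I, (E S).1.flatMap (f fun k => decide (k ∈ S')) =
      (E S).2.flatMap (f fun k => decide (k ∈ S')) ↔ S ≠ S' := fun S hS S' hS' => by
    rw [hE]
    simp only [decide_eq_false_iff_not]
    refine ⟨fun ⟨k, a, b⟩ e => b (e ▸ a), fun hne => ?_⟩
    by_contra hc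
    push Not at hc
    exact hne (Finset.eq_of_subset_of_card_le hc (by
      rw [(Finset.mem_powersetCard.1 hS).2, (Finset.mem_powersetCard.1 hS').2]))
  have hinj : Set.InjOn E I := fun S hS S' hS' e => by
    by_contra hne
    have := (hE' S hS S' hS').2 hne
    rw [e] at this
    exact (hE' S' hS' S' hS').1 this rfl
  refine ⟨I.image E, fun x hx => ?_, ?_, fun T hT => ?_,
    f fun _ => false, fun i => val_ne _ _ _, fun x hx => ?_, e (.inr 0), e (.inr 1), ?_⟩
  · obtain ⟨S, -, rfl⟩ := Finset.mem_image.1 hx
    simp [E]
  · rw [Finset.card_image_of_injOn hinj, hI, Finset.card_powersetCard, Finset.card_univ,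
      Fintype.card_fin]
    exact Nat.choose_symm_of_eq_add (by omega)
  · obtain ⟨x, hx, hxT⟩ := Finset.exists_of_ssubset hT
    obtain ⟨S, hS, rfl⟩ := Finset.mem_image.1 hx
    refine ⟨f fun k => decide (k ∈ S), fun i => val_ne _ _ _, fun y hy => ?_, E S, hx,
      fun h => (hE' S hS S hS).1 h rfl⟩
    obtain ⟨S', hS', rfl⟩ := Finset.mem_image.1 (hT.1 hy)
    refine (hE' S' hS' S hS).2 ?_
    rintro rfl
    exact hxT hy
  · obtain ⟨S, hS, rfl⟩ := Finset.mem_image.1 hx
    obtain ⟨k, hk⟩ : S.Nonempty := by
      rw [← Finset.card_pos, (Finset.mem_powersetCard.1 hS).2]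
      omega
    exact (hE S _).2 ⟨k, hk, rfl⟩
  · simp [f, val]

end Pool.Agent.P.MP_dca9d4_lc.Semi
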